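import Mathlib
import Pool.Agent.H90.PNT
import Pool.Agent.H90.UnitFractions

/-!
# Erdos-Graham: the least nonzero distance `δ(N)` from 1 to unit fraction sums

For every `c > 5/6` and every large `N` there is `N' ∈ [N, 6N/5]` with `δ(N') ≥ exp (-c N')`.
In particular `liminf (-log δ(N)) / N ≤ 5/6`.
-/

open Finset Filter Topology Pool.Agent.H90 Pool.Agent.H90.UF

namespace Pool.Agent.Results.MP_4a64c7_nt.LiminfBound

lemma delta_antitone {M N : ℕ} (h : N ≤ M) : delta M ≤ delta N := by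
  obtain ⟨A, hA, h1, h0⟩ := delta_attained N
  rw [← h1]
  exact delta_le M A (hA.trans (Finset.Icc_subset_Icc le_rfl h)) h0

/-- trivial lower bound -/
lemma exp_neg_psi_le_delta (N : ℕ) (hN : 1 ≤ N) : Real.exp (-Chebyshev.psi N) ≤ delta N := by
  obtain ⟨A, hA, h1, h0⟩ := delta_attained N
  have hB : ({1} : Finset ℕ) ⊆ Icc 1 N := by
    intro n hn
    rw [Finset.mem_singleton] at hn
    rw [Finset.mem_Icc]; omega
  have hne : ∑ n ∈ ({1} : Finset ℕ), (1 : ℝ) / n ≠ ∑ n ∈ A, (1 : ℝ) / n := by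
    intro h
    apply h0
    rw [← h]
    simp
  have h2 := gap N {1} A hB hA hne ∅ (by simp) (by simp)
  simp only [Finset.sum_empty, sub_zero, Finset.sum_singleton, Nat.cast_one, div_one] at h2
  rw [← h1]
  exact h2

/-- the asymptotic input from the prime number theorem -/
lemma asymptotic (c : ℝ) (hc : 5 / 6 < c) :
    ∀ᶠ M : ℕ in atTop, 3 * Chebyshev.psi M - (Chebyshev.theta M - Chebyshev.theta ((M : ℝ) / 2)) <
      3 * (c * ((M : ℝ) - 1)) - Real.log 2 := by
  have hcast : Tendsto (fun M : ℕ => (M : ℝ)) atTop atTop := tendsto_natCast_atTop_atTop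
  have h1 : Tendsto (fun M : ℕ => Chebyshev.psi (M : ℝ) / (M : ℝ)) atTop (𝓝 1) :=
    tendsto_psi_div.comp hcast
  have h2 : Tendsto (fun M : ℕ => Chebyshev.theta (M : ℝ) / (M : ℝ)) atTop (𝓝 1) :=
    tendsto_theta_div.comp hcast
  have h3 : Tendsto (fun M : ℕ => Chebyshev.theta ((M : ℝ) / 2) / ((M : ℝ) / 2)) atTop (𝓝 1) :=
    tendsto_theta_div.comp (hcast.atTop_div_const (by norm_num))
  have h4 : Tendsto (fun M : ℕ => 3 * (Chebyshev.psi (M : ℝ) / (M : ℝ)) -
      (Chebyshev.theta (M : ℝ) / (M : ℝ) - (1 / 2) *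
        (Chebyshev.theta ((M : ℝ) / 2) / ((M : ℝ) / 2))) + (3 * c + Real.log 2) / (M : ℝ))
      atTop (𝓝 (3 * 1 - (1 - (1 / 2) * 1) + 0)) := by
    apply ((h1.const_mul 3).sub (h2.sub (h3.const_mul (1 / 2)))).add
    exact hcast.const_div_atTop _
  have h5 := h4.eventually (gt_mem_nhds (show 3 * 1 - (1 - (1 / 2) * 1) + 0 < 3 * c by linarith))
  filter_upwards [h5, eventually_gt_atTop 0] with M hM hM0
  have hMpos : (0 : ℝ) < M := by exact_mod_cast hM0
  have h6 : (3 * (Chebyshev.psi (M : ℝ) / (M : ℝ)) -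
      (Chebyshev.theta (M : ℝ) / (M : ℝ) - (1 / 2) *
        (Chebyshev.theta ((M : ℝ) / 2) / ((M : ℝ) / 2))) + (3 * c + Real.log 2) / (M : ℝ)) * M <
      3 * c * M := mul_lt_mul_of_pos_right hM hMpos
  have h7 : (3 * (Chebyshev.psi (M : ℝ) / (M : ℝ)) -
      (Chebyshev.theta (M : ℝ) / (M : ℝ) - (1 / 2) *
        (Chebyshev.theta ((M : ℝ) / 2) / ((M : ℝ) / 2))) + (3 * c + Real.log 2) / (M : ℝ)) * M =
      3 * Chebyshev.psi M - (Chebyshev.theta M - Chebyshev.theta ((M : ℝ) / 2)) +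
        (3 * c + Real.log 2) := by
    field_simp
  rw [h7] at h6
  linarith

/-- `A` and `B` contain the same multiples of `p` (below `M`). -/
def Alike (M : ℕ) (A B : Finset ℕ) (p : ℕ) : Prop :=
  ∀ n, n ∈ Icc 1 M → p ∣ n → (n ∈ A ↔ n ∈ B)

open Classical in
/-- The primes all of whose multiples are treated alike by `A` and `B`. -/
noncomputable def agree (M : ℕ) (A B : Finset ℕ) : Finset ℕ :=
  (Nat.primesLE M).filter (fun p => Alike M A B p)

lemma mem_agree {M : ℕ} {A B : Finset ℕ} {p : ℕ} : p ∈ agree M A B ↔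
    p ∈ Nat.primesLE M ∧ ∀ n, n ∈ Icc 1 M → p ∣ n → (n ∈ A ↔ n ∈ B) := by
  classical
  unfold agree
  rw [Finset.mem_filter]
  rfl

lemma gap_agree (M : ℕ) (A B : Finset ℕ) (hA : A ⊆ Icc 1 M) (hB : B ⊆ Icc 1 M)
    (hne : ∑ n ∈ A, (1 : ℝ) / n ≠ ∑ n ∈ B, (1 : ℝ) / n) (T : ℝ)
    (hT : |∑ n ∈ A, (1 : ℝ) / n - ∑ n ∈ B, (1 : ℝ) / n| ≤ Real.exp (-T)) :
    T ≤ Chebyshev.psi M - ∑ p ∈ agree M A B, Real.log p := by
  have h := gap M A B hA hB hne (agree M A B) (fun p hp => (mem_agree.mp hp).1) (by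
    intro p hp n hpn
    by_cases hn : n ∈ Icc 1 M
    · exact (mem_agree.mp hp).2 n hn hpn
    · have h1 : n ∉ A := fun h => hn (hA h)
      have h2 : n ∉ B := fun h => hn (hB h)
      simp [h1, h2])
  have h2 := h.trans hT
  rw [Real.exp_le_exp] at h2
  linarith

/-- Every prime in `(M/2, M]` is in one of the three `agree` sets. -/
lemma three_agree (M : ℕ) (A B C : Finset ℕ) :
    Chebyshev.theta M - Chebyshev.theta ((M : ℝ) / 2) ≤
      ∑ p ∈ agree M A B, Real.log p + ∑ p ∈ agree M A C, Real.log p +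
        ∑ p ∈ agree M B C, Real.log p := by
  classical
  rw [Chebyshev.theta_eq_sum_primesLE, Chebyshev.theta_eq_sum_primesLE, Nat.floor_natCast]
  have hsub : Nat.primesLE ⌊(M : ℝ) / 2⌋₊ ⊆ Nat.primesLE M := by
    intro p hp
    rw [Nat.mem_primesLE] at hp ⊢
    refine ⟨?_, hp.2⟩
    have h1 : ⌊(M : ℝ) / 2⌋₊ ≤ M := by
      apply Nat.floor_le_of_le
      have : (0 : ℝ) ≤ M := Nat.cast_nonneg M
      linarith
    exact hp.1.trans h1
  rw [← Finset.sum_sdiff hsub, add_sub_cancel_right]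
  have hcover : Nat.primesLE M \ Nat.primesLE ⌊(M : ℝ) / 2⌋₊ ⊆
      agree M A B ∪ agree M A C ∪ agree M B C := by
    intro p hp
    rw [Finset.mem_sdiff, Nat.mem_primesLE, Nat.mem_primesLE] at hp
    obtain ⟨⟨hpM, hpp⟩, hp2⟩ := hp
    have hp3 : (M : ℝ) / 2 < p := by
      by_contra hcon
      push Not at hcon
      exact hp2 ⟨Nat.le_floor hcon, hpp⟩
    have hp4 : M < 2 * p := by
      have : (M : ℝ) < 2 * p := by linarith
      exact_mod_cast this
    -- the only multiple of `p` in `[1, M]` is `p`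
    have honly : ∀ n, n ∈ Icc 1 M → p ∣ n → n = p := by
      intro n hn hpn
      rw [Finset.mem_Icc] at hn
      obtain ⟨k, rfl⟩ := hpn
      have hk1 : 1 ≤ k := by
        rcases Nat.eq_zero_or_pos k with h | h
        · rw [h] at hn; omega
        · exact h
      have hk2 : k < 2 := by
        by_contra hcon
        push Not at hcon
        have : p * 2 ≤ p * k := Nat.mul_le_mul_left p hcon
        omega
      have : k = 1 := by omega
      rw [this, mul_one]
    have hmem : p ∈ Nat.primesLE M := Nat.mem_primesLE.mpr ⟨hpM, hpp⟩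
    rw [Finset.mem_union, Finset.mem_union, mem_agree, mem_agree, mem_agree]
    by_cases h1 : p ∈ A ↔ p ∈ B
    · left; left
      exact ⟨hmem, fun n hn hpn => by rw [honly n hn hpn]; exact h1⟩
    · by_cases h2 : p ∈ A ↔ p ∈ C
      · left; right
        exact ⟨hmem, fun n hn hpn => by rw [honly n hn hpn]; exact h2⟩
      · right
        refine ⟨hmem, fun n hn hpn => ?_⟩
        rw [honly n hn hpn]
        tauto
  have hnn : ∀ p : ℕ, 0 ≤ Real.log p := fun p => Real.log_natCast_nonneg p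
  have hun : ∀ X Y : Finset ℕ, ∑ p ∈ X ∪ Y, Real.log (p : ℝ) ≤
      ∑ p ∈ X, Real.log (p : ℝ) + ∑ p ∈ Y, Real.log (p : ℝ) := by
    intro X Y
    have h1 := Finset.sum_union_inter (s₁ := X) (s₂ := Y) (f := fun p : ℕ => Real.log (p : ℝ))
    have h2 : 0 ≤ ∑ p ∈ X ∩ Y, Real.log (p : ℝ) := Finset.sum_nonneg fun p _ => hnn p
    linarith
  calc ∑ p ∈ Nat.primesLE M \ Nat.primesLE ⌊(M : ℝ) / 2⌋₊, Real.log (p : ℝ)
      ≤ ∑ p ∈ agree M A B ∪ agree M A C ∪ agree M B C, Real.log (p : ℝ) :=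
        Finset.sum_le_sum_of_subset_of_nonneg hcover fun p _ _ => hnn p
    _ ≤ _ := by
        have h1 := hun (agree M A B ∪ agree M A C) (agree M B C)
        have h2 := hun (agree M A B) (agree M A C)
        linarith

/-- For every `c > 5/6` and every large `N` there is `N' ∈ [N, 6N/5]` with
`δ(N') ≥ exp (-c N')`. -/
theorem result (c : ℝ) (hc : 5 / 6 < c) : ∀ᶠ N : ℕ in atTop, ∃ N' : ℕ, N ≤ N' ∧
    (N' : ℝ) ≤ 6 / 5 * N ∧ Real.exp (-c * N') ≤ delta N' := by
  have hcast : Tendsto (fun M : ℕ => (M : ℝ)) atTop atTop := tendsto_natCast_atTop_atTop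
  -- psi(N) < c (6N/5 - 1) for large N
  have hpsi : ∀ᶠ N : ℕ in atTop, Chebyshev.psi N < c * (6 / 5 * (N : ℝ) - 1) := by
    have h1 : Tendsto (fun M : ℕ => Chebyshev.psi (M : ℝ) / (M : ℝ) + c / (M : ℝ)) atTop
        (𝓝 (1 + 0)) :=
      (tendsto_psi_div.comp hcast).add (hcast.const_div_atTop _)
    have h2 := h1.eventually (gt_mem_nhds (show (1 : ℝ) + 0 < c * (6 / 5) by linarith))
    filter_upwards [h2, eventually_gt_atTop 0] with M hM hM0
    have hMpos : (0 : ℝ) < M := by exact_mod_cast hM0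
    have h3 : (Chebyshev.psi (M : ℝ) / (M : ℝ) + c / (M : ℝ)) * M < c * (6 / 5) * M :=
      mul_lt_mul_of_pos_right hM hMpos
    have h4 : (Chebyshev.psi (M : ℝ) / (M : ℝ) + c / (M : ℝ)) * M = Chebyshev.psi M + c := by
      field_simp
    rw [h4] at h3
    linarith
  obtain ⟨M₁, hM₁⟩ := eventually_atTop.mp (asymptotic c hc)
  filter_upwards [hpsi, eventually_ge_atTop M₁, eventually_ge_atTop 1] with N hN1 hN2 hN3
  by_contra hcon
  push Not at hcon
  -- the hypothesis for contradiction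
  have hsmall : ∀ N' : ℕ, N ≤ N' → (N' : ℝ) ≤ 6 / 5 * N → delta N' < Real.exp (-c * N') :=
    fun N' h1 h2 => hcon N' h1 h2
  set M0 : ℕ := ⌊6 / 5 * (N : ℝ)⌋₊ with hM0
  have hM0le : (M0 : ℝ) ≤ 6 / 5 * N := Nat.floor_le (by positivity)
  have hM0gt : 6 / 5 * (N : ℝ) - 1 < M0 := by
    have := Nat.lt_floor_add_one (6 / 5 * (N : ℝ))
    linarith
  have hNM0 : N ≤ M0 := by
    apply Nat.le_floor
    have : (0 : ℝ) ≤ N := Nat.cast_nonneg N
    linarith
  -- some `M ≤ M0` has `δ(M) < δ(N)`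
  have hex : ∃ M, delta M < delta N := by
    refine ⟨M0, ?_⟩
    by_contra hge
    push Not at hge
    have h1 := hsmall M0 hNM0 hM0le
    have h2 := exp_neg_psi_le_delta N hN3
    have h3 : Real.exp (-Chebyshev.psi N) < Real.exp (-c * M0) :=
      lt_of_le_of_lt (h2.trans hge) h1
    rw [Real.exp_lt_exp] at h3
    have hcpos : 0 < c := by linarith
    have h4 : c * (6 / 5 * (N : ℝ) - 1) < c * M0 := mul_lt_mul_of_pos_left hM0gt hcpos
    linarith
  classical
  have hM0dlt : delta M0 < delta N := by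
    by_contra hge
    push Not at hge
    have h1 := hsmall M0 hNM0 hM0le
    have h2 := exp_neg_psi_le_delta N hN3
    have h3 : Real.exp (-Chebyshev.psi N) < Real.exp (-c * M0) :=
      lt_of_le_of_lt (h2.trans hge) h1
    rw [Real.exp_lt_exp] at h3
    have hcpos : 0 < c := by linarith
    have h4 : c * (6 / 5 * (N : ℝ) - 1) < c * M0 := mul_lt_mul_of_pos_left hM0gt hcpos
    linarith
  set M := Nat.find hex with hM
  have hMlt : delta M < delta N := Nat.find_spec hex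
  have hMmin : ∀ m, m < M → delta N ≤ delta m := fun m hm => by
    have := Nat.find_min hex hm
    exact not_lt.mp this
  have hMM0 : M ≤ M0 := Nat.find_min' hex hM0dlt
  have hNM : N < M := by
    by_contra hcon2
    push Not at hcon2
    have := delta_antitone hcon2
    linarith
  have hMle : (M : ℝ) ≤ 6 / 5 * N := le_trans (by exact_mod_cast hMM0) hM0le
  -- bounds
  have hb1 : delta N < Real.exp (-(c * ((M : ℝ) - 1))) := by
    have h1 : N ≤ M - 1 := by omega
    have h2 := hsmall (M - 1) h1 (by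
      have : ((M - 1 : ℕ) : ℝ) ≤ M := by exact_mod_cast Nat.sub_le M 1
      linarith)
    have h3 := hMmin (M - 1) (by omega)
    have h4 : ((M - 1 : ℕ) : ℝ) = (M : ℝ) - 1 := by
      rw [Nat.cast_sub (by omega)]; simp
    rw [h4] at h2
    calc delta N ≤ delta (M - 1) := h3
      _ < Real.exp (-c * ((M : ℝ) - 1)) := h2
      _ = Real.exp (-(c * ((M : ℝ) - 1))) := by congr 1; ring
  obtain ⟨A1, hA1, hA1d, hA10⟩ := delta_attained N
  obtain ⟨A2, hA2, hA2d, hA20⟩ := delta_attained M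
  have hA1M : A1 ⊆ Icc 1 M := hA1.trans (Finset.Icc_subset_Icc le_rfl hNM.le)
  have hB : ({1} : Finset ℕ) ⊆ Icc 1 M := by
    intro n hn
    rw [Finset.mem_singleton] at hn
    rw [Finset.mem_Icc]; omega
  have hBs : ∑ n ∈ ({1} : Finset ℕ), (1 : ℝ) / n = 1 := by simp
  have g1 := gap_agree M {1} A1 hB hA1M (by
    rw [hBs]; intro h; apply hA10; rw [← h]; simp) (c * ((M : ℝ) - 1)) (by
    rw [hBs, hA1d]; exact hb1.le)
  have g2 := gap_agree M {1} A2 hB hA2 (by
    rw [hBs]; intro h; apply hA20; rw [← h]; simp) (c * ((M : ℝ) - 1)) (by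
    rw [hBs, hA2d]; exact (hMlt.trans hb1).le)
  have g3 := gap_agree M A1 A2 hA1M hA2 (by
    intro h
    rw [h, hA2d] at hA1d
    linarith) (c * ((M : ℝ) - 1) - Real.log 2) (by
    have h1 : |∑ n ∈ A1, (1 : ℝ) / n - ∑ n ∈ A2, (1 : ℝ) / n| ≤ delta N + delta M := by
      have h2 : ∑ n ∈ A1, (1 : ℝ) / n - ∑ n ∈ A2, (1 : ℝ) / n =
          (1 - ∑ n ∈ A2, (1 : ℝ) / n) - (1 - ∑ n ∈ A1, (1 : ℝ) / n) := by ring
      rw [h2, ← hA1d, ← hA2d, add_comm]
      exact abs_sub _ _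
    have h3 : Real.exp (-(c * ((M : ℝ) - 1) - Real.log 2)) =
        2 * Real.exp (-(c * ((M : ℝ) - 1))) := by
      have : -(c * ((M : ℝ) - 1) - Real.log 2) = Real.log 2 + -(c * ((M : ℝ) - 1)) := by ring
      rw [this, Real.exp_add, Real.exp_log (by norm_num)]
    rw [h3]
    linarith)
  have h3a := three_agree M {1} A1 A2
  have hfin := hM₁ M (by omega)
  linarith

end Pool.Agent.Results.MP_4a64c7_nt.LiminfBound
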