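import Mathlib
import Pool.Agent.H90.PNT
import Pool.Agent.H90.UnitFractions

/-!
# Erdos-Graham: if `δ(N) = exp (-(c + o(1)) N)` then `c ≤ log 2`
-/

open Finset Filter Topology Pool.Agent.H90 Pool.Agent.H90.UF

namespace Pool.Agent.Results.MP_4a64c7_nt.LimitBound

/-- the multiples of `p` in `A` -/
def mult (p : ℕ) (A : Finset ℕ) : Finset ℕ := A.filter (fun n => p ∣ n)

lemma card_mult_Icc (M p : ℕ) : (mult p (Icc 1 M)).card = M / p := by
  unfold mult
  have : Icc 1 M = Ioc 0 M := by ext k; simp [Nat.succ_le_iff]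
  rw [this]
  exact Nat.Ioc_filter_dvd_card_eq_div M p

/-- Cauchy-Schwarz count of coinciding pairs. -/
lemma pair_count {K : ℕ} (M p : ℕ) (A : Fin K → Finset ℕ) (hA : ∀ i, A i ⊆ Icc 1 M) :
    (K : ℝ) ^ 2 / 2 ^ (M / p) ≤
      ∑ i : Fin K, ∑ j : Fin K, if mult p (A i) = mult p (A j) then (1 : ℝ) else 0 := by
  classical
  set t := (mult p (Icc 1 M)).powerset with ht
  have hcard : (t.card : ℝ) = 2 ^ (M / p) := by
    rw [ht, Finset.card_powerset, card_mult_Icc]; push_cast; rfl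
  have hmaps : ∀ i ∈ (univ : Finset (Fin K)), mult p (A i) ∈ t := by
    intro i _
    rw [ht, Finset.mem_powerset]
    exact Finset.filter_subset_filter _ (hA i)
  set c : Finset ℕ → ℝ := fun S => ((univ.filter (fun i : Fin K => mult p (A i) = S)).card : ℝ)
    with hc
  have h1 : ∑ i : Fin K, ∑ j : Fin K, (if mult p (A i) = mult p (A j) then (1 : ℝ) else 0) =
      ∑ S ∈ t, c S ^ 2 := by
    rw [← Finset.sum_fiberwise_of_maps_to hmaps]
    apply Finset.sum_congr rfl
    intro S _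
    have h2 : ∀ i ∈ univ.filter (fun i : Fin K => mult p (A i) = S),
        ∑ j : Fin K, (if mult p (A i) = mult p (A j) then (1 : ℝ) else 0) = c S := by
      intro i hi
      rw [Finset.mem_filter] at hi
      rw [hi.2, hc]
      simp only
      rw [Finset.sum_boole]
      congr 2
      ext j
      simp [eq_comm]
    rw [Finset.sum_congr rfl h2, Finset.sum_const, nsmul_eq_mul, sq]
  have h3 : ∑ S ∈ t, c S = K := by
    rw [hc]
    simp only
    rw [← Nat.cast_sum, ← Finset.card_eq_sum_card_fiberwise hmaps]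
    simp
  have h4 := sq_sum_le_card_mul_sum_sq (s := t) (f := c)
  rw [h1, div_le_iff₀ (by positivity), ← hcard, ← h3, mul_comm]
  exact h4

/-- The averaged inequality (Plotkin's argument). -/
lemma plotkin {K : ℕ} (M : ℕ) (A : Fin K → Finset ℕ) (hA : ∀ i, A i ⊆ Icc 1 M) (T : ℝ)
    (hne : ∀ i j, i ≠ j → ∑ n ∈ A i, (1 : ℝ) / n ≠ ∑ n ∈ A j, (1 : ℝ) / n)
    (hT : ∀ i j, i ≠ j → |∑ n ∈ A i, (1 : ℝ) / n - ∑ n ∈ A j, (1 : ℝ) / n| ≤ Real.exp (-T)) :
    ((K : ℝ) ^ 2 - K) * T ≤ ((K : ℝ) ^ 2 - K) * Chebyshev.psi M + K * Chebyshev.theta M -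
      (K : ℝ) ^ 2 * ∑ p ∈ Nat.primesLE M, Real.log p / 2 ^ (M / p) := by
  classical
  have hpair : ∀ i j : Fin K, i ≠ j → T ≤ Chebyshev.psi M - ∑ p ∈ Nat.primesLE M,
      (if mult p (A i) = mult p (A j) then (1 : ℝ) else 0) * Real.log p := by
    intro i j hij
    set P := (Nat.primesLE M).filter (fun p => mult p (A i) = mult p (A j)) with hP
    have h := gap M (A i) (A j) (hA i) (hA j) (hne i j hij) P (Finset.filter_subset _ _) (by
      intro p hp n hpn
      rw [hP, Finset.mem_filter] at hp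
      have h1 : n ∈ mult p (A i) ↔ n ∈ mult p (A j) := by rw [hp.2]
      unfold mult at h1
      rw [Finset.mem_filter, Finset.mem_filter] at h1
      tauto)
    have h2 := h.trans (hT i j hij)
    rw [Real.exp_le_exp] at h2
    have h3 : ∑ p ∈ Nat.primesLE M,
        (if mult p (A i) = mult p (A j) then (1 : ℝ) else 0) * Real.log p =
        ∑ p ∈ P, Real.log p := by
      rw [hP, Finset.sum_filter]
      apply Finset.sum_congr rfl
      intro p _
      split_ifs <;> simp
    rw [h3]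
    linarith
  -- diagonal terms give `θ(M)`
  have hdiag : ∀ i : Fin K, ∑ p ∈ Nat.primesLE M,
      (if mult p (A i) = mult p (A i) then (1 : ℝ) else 0) * Real.log p = Chebyshev.theta M := by
    intro i
    rw [Chebyshev.theta_eq_sum_primesLE_log]
    simp
  set F : Fin K → Fin K → ℝ := fun i j => ∑ p ∈ Nat.primesLE M,
      (if mult p (A i) = mult p (A j) then (1 : ℝ) else 0) * Real.log p with hF
  have hsumF : ∑ i : Fin K, ∑ j : Fin K, F i j =
      ∑ p ∈ Nat.primesLE M, (∑ i : Fin K, ∑ j : Fin K,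
        (if mult p (A i) = mult p (A j) then (1 : ℝ) else 0)) * Real.log p := by
    rw [hF]
    simp only
    have : ∀ i : Fin K, ∑ j : Fin K, ∑ p ∈ Nat.primesLE M,
        (if mult p (A i) = mult p (A j) then (1 : ℝ) else 0) * Real.log p =
        ∑ p ∈ Nat.primesLE M, ∑ j : Fin K,
        (if mult p (A i) = mult p (A j) then (1 : ℝ) else 0) * Real.log p :=
      fun i => Finset.sum_comm
    rw [Finset.sum_congr rfl fun i _ => this i, Finset.sum_comm]
    apply Finset.sum_congr rfl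
    intro p _
    rw [Finset.sum_mul]
    apply Finset.sum_congr rfl
    intro i _
    rw [Finset.sum_mul]
  have hlow : (K : ℝ) ^ 2 * ∑ p ∈ Nat.primesLE M, Real.log p / 2 ^ (M / p) ≤
      ∑ i : Fin K, ∑ j : Fin K, F i j := by
    rw [hsumF, Finset.mul_sum]
    apply Finset.sum_le_sum
    intro p _
    have h1 := pair_count M p A hA
    have h2 : 0 ≤ Real.log (p : ℝ) := Real.log_natCast_nonneg p
    calc (K : ℝ) ^ 2 * (Real.log p / 2 ^ (M / p)) = (K : ℝ) ^ 2 / 2 ^ (M / p) * Real.log p := by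
          ring
      _ ≤ _ := mul_le_mul_of_nonneg_right h1 h2
  -- sum over all pairs
  have hall : ∀ i j : Fin K, (if i = j then Chebyshev.theta M else T) ≤
      (if i = j then 0 else Chebyshev.psi M) + (if i = j then 2 * Chebyshev.theta M else 0) -
        F i j := by
    intro i j
    by_cases hij : i = j
    · subst hij
      have : F i i = Chebyshev.theta M := hdiag i
      simp only [if_true]
      rw [this]
      linarith
    · have : T ≤ Chebyshev.psi M - F i j := hpair i j hij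
      simp only [if_neg hij]
      linarith
  have hsum : ∑ i : Fin K, ∑ j : Fin K, (if i = j then Chebyshev.theta M else T) ≤
      ∑ i : Fin K, ∑ j : Fin K, ((if i = j then 0 else Chebyshev.psi M) +
        (if i = j then 2 * Chebyshev.theta M else 0) - F i j) :=
    Finset.sum_le_sum fun i _ => Finset.sum_le_sum fun j _ => hall i j
  have hcount : ∀ a b : ℝ, ∑ i : Fin K, ∑ j : Fin K, (if i = j then a else b) =
      K * a + ((K : ℝ) ^ 2 - K) * b := by
    intro a b
    have h1 : ∀ i : Fin K, ∑ j : Fin K, (if i = j then a else b) = a + ((K : ℝ) - 1) * b := by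
      intro i
      have h2 : ∀ j : Fin K, (if i = j then a else b) = (if i = j then a - b else 0) + b := by
        intro j; split_ifs <;> ring
      rw [Finset.sum_congr rfl fun j _ => h2 j, Finset.sum_add_distrib, Finset.sum_ite_eq]
      simp
      ring
    rw [Finset.sum_congr rfl fun i _ => h1 i, Finset.sum_const, nsmul_eq_mul]
    simp
    ring
  have hrhs : ∑ i : Fin K, ∑ j : Fin K, ((if i = j then 0 else Chebyshev.psi M) +
        (if i = j then 2 * Chebyshev.theta M else 0) - F i j) =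
      (K * 0 + ((K : ℝ) ^ 2 - K) * Chebyshev.psi M) +
      (K * (2 * Chebyshev.theta M) + ((K : ℝ) ^ 2 - K) * 0) -
        ∑ i : Fin K, ∑ j : Fin K, F i j := by
    rw [← hcount, ← hcount]
    simp only [Finset.sum_add_distrib, Finset.sum_sub_distrib]
  rw [hcount, hrhs] at hsum
  linarith

/-- partial sums of the weights -/
noncomputable def S (J : ℕ) : ℝ :=
  ∑ j ∈ range J, (1 / 2 : ℝ) ^ (j + 1) * (1 / ((j : ℝ) + 1) - 1 / ((j : ℝ) + 2))

lemma S_tendsto : Tendsto S atTop (𝓝 (1 - Real.log 2)) := by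
  have h1 : HasSum (fun n : ℕ => (1 / 2 : ℝ) ^ (n + 1) / (n + 1)) (Real.log 2) := by
    have h := Real.hasSum_pow_div_log_of_abs_lt_one (x := 1 / 2) (by rw [abs_lt]; norm_num)
    have h2 : -Real.log (1 - 1 / 2) = Real.log 2 := by
      rw [← Real.log_inv]; norm_num
    rw [h2] at h
    exact h
  have h2 : HasSum (fun n : ℕ => (1 / 2 : ℝ) ^ (n + 1 + 1) / ((n + 1 : ℕ) + 1))
      (Real.log 2 - 1 / 2) := by
    have h := (hasSum_nat_add_iff' 1).mpr h1
    simpa using h
  have h3 : HasSum (fun n : ℕ => (1 / 2 : ℝ) ^ (n + 1) * (1 / ((n : ℝ) + 1) - 1 / ((n : ℝ) + 2)))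
      (Real.log 2 - 2 * (Real.log 2 - 1 / 2)) := by
    have h := h1.sub (h2.mul_left 2)
    have heq : (fun n : ℕ => (1 / 2 : ℝ) ^ (n + 1) * (1 / ((n : ℝ) + 1) - 1 / ((n : ℝ) + 2))) =
        fun n : ℕ => (1 / 2 : ℝ) ^ (n + 1) / (n + 1) -
          2 * ((1 / 2 : ℝ) ^ (n + 1 + 1) / ((n + 1 : ℕ) + 1)) := by
      funext n
      have h5 : ((n + 1 : ℕ) : ℝ) + 1 = n + 2 := by push_cast; ring
      rw [h5, pow_succ (1 / 2 : ℝ) (n + 1)]
      ring
    rw [heq]
    exact h
  have h4 : Real.log 2 - 2 * (Real.log 2 - 1 / 2) = 1 - Real.log 2 := by ring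
  rw [h4] at h3
  exact h3.tendsto_sum_nat

/-- Grouping the primes `p ≤ M` by `M / p`. -/
lemma weights_lower (M J : ℕ) :
    ∑ j ∈ range J, (1 / 2 : ℝ) ^ (j + 1) *
      (Chebyshev.theta (M / ((j : ℝ) + 1)) - Chebyshev.theta (M / ((j : ℝ) + 2))) ≤
      ∑ p ∈ Nat.primesLE M, Real.log p / 2 ^ (M / p) := by
  classical
  have hfl : ∀ k : ℕ, 0 < k → Chebyshev.theta ((M : ℝ) / k) =
      ∑ p ∈ Nat.primesLE (M / k), Real.log p := by
    intro k _
    rw [Chebyshev.theta_eq_sum_primesLE, Nat.floor_div_natCast, Nat.floor_natCast]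
  have hblock : ∀ j : ℕ, Chebyshev.theta (M / ((j : ℝ) + 1)) - Chebyshev.theta (M / ((j : ℝ) + 2)) =
      ∑ p ∈ (Nat.primesLE M).filter (fun p => M / p = j + 1), Real.log p := by
    intro j
    have e1 : ((j : ℝ) + 1) = ((j + 1 : ℕ) : ℝ) := by push_cast; ring
    have e2 : ((j : ℝ) + 2) = ((j + 2 : ℕ) : ℝ) := by push_cast; ring
    rw [e1, e2, hfl _ (by omega), hfl _ (by omega)]
    have hsub : Nat.primesLE (M / (j + 2)) ⊆ Nat.primesLE (M / (j + 1)) := by
      intro p hp
      rw [Nat.mem_primesLE] at hp ⊢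
      exact ⟨hp.1.trans (Nat.div_le_div_left (by omega) (by omega)), hp.2⟩
    rw [← Finset.sum_sdiff hsub, add_sub_cancel_right]
    apply Finset.sum_congr _ (fun _ _ => rfl)
    ext p
    rw [Finset.mem_sdiff, Finset.mem_filter, Nat.mem_primesLE, Nat.mem_primesLE, Nat.mem_primesLE]
    constructor
    · rintro ⟨⟨h1, hp⟩, h2⟩
      have h3 : ¬ p ≤ M / (j + 2) := fun h => h2 ⟨h, hp⟩
      rw [Nat.le_div_iff_mul_le (by omega)] at h1 h3
      refine ⟨⟨?_, hp⟩, ?_⟩
      · calc p = p * 1 := (mul_one p).symm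
          _ ≤ p * (j + 1) := Nat.mul_le_mul_left p (by omega)
          _ ≤ M := h1
      · rw [Nat.div_eq_iff hp.pos]
        push Not at h3
        constructor
        · rw [mul_comm]; exact h1
        · have : p * (j + 2) = (j + 1) * p + p := by ring
          omega
    · rintro ⟨⟨_, hp⟩, h2⟩
      rw [Nat.div_eq_iff hp.pos] at h2
      obtain ⟨h3, h4⟩ := h2
      refine ⟨⟨?_, hp⟩, ?_⟩
      · rw [Nat.le_div_iff_mul_le (by omega), mul_comm]; exact h3
      · rintro ⟨h5, _⟩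
        rw [Nat.le_div_iff_mul_le (by omega)] at h5
        have : p * (j + 2) = (j + 1) * p + p := by ring
        have := hp.pos
        omega
  have hterm : ∀ j : ℕ, (1 / 2 : ℝ) ^ (j + 1) *
      (Chebyshev.theta (M / ((j : ℝ) + 1)) - Chebyshev.theta (M / ((j : ℝ) + 2))) =
      ∑ p ∈ (Nat.primesLE M).filter (fun p => M / p = j + 1), Real.log p / 2 ^ (M / p) := by
    intro j
    rw [hblock, Finset.mul_sum]
    apply Finset.sum_congr rfl
    intro p hp
    rw [(Finset.mem_filter.mp hp).2]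
    rw [one_div, inv_pow]
    ring
  rw [Finset.sum_congr rfl fun j _ => hterm j]
  rw [← Finset.sum_biUnion]
  · apply Finset.sum_le_sum_of_subset_of_nonneg
    · intro p hp
      rw [Finset.mem_biUnion] at hp
      obtain ⟨j, _, hj⟩ := hp
      exact (Finset.mem_filter.mp hj).1
    · intro p _ _
      have := Real.log_natCast_nonneg p
      positivity
  · intro i _ j _ hij
    apply Finset.disjoint_left.mpr
    intro p hp hp'
    have h1 := (Finset.mem_filter.mp hp).2
    have h2 := (Finset.mem_filter.mp hp').2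
    apply hij
    omega

/-- The right-hand side of the averaged inequality, divided by `M`. -/
lemma rhs_tendsto (K J : ℕ) :
    Tendsto (fun M : ℕ => (((K : ℝ) ^ 2 - K) * Chebyshev.psi M + K * Chebyshev.theta M -
      (K : ℝ) ^ 2 * ∑ j ∈ range J, (1 / 2 : ℝ) ^ (j + 1) *
        (Chebyshev.theta (M / ((j : ℝ) + 1)) - Chebyshev.theta (M / ((j : ℝ) + 2)))) / M) atTop
      (𝓝 ((K : ℝ) ^ 2 * (1 - S J))) := by
  have hcast : Tendsto (fun M : ℕ => (M : ℝ)) atTop atTop := tendsto_natCast_atTop_atTop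
  have h1 : Tendsto (fun M : ℕ => Chebyshev.psi (M : ℝ) / (M : ℝ)) atTop (𝓝 1) :=
    tendsto_psi_div.comp hcast
  have h2 : Tendsto (fun M : ℕ => Chebyshev.theta (M : ℝ) / (M : ℝ)) atTop (𝓝 1) :=
    tendsto_theta_div.comp hcast
  have h3 : ∀ k : ℝ, 0 < k →
      Tendsto (fun M : ℕ => Chebyshev.theta ((M : ℝ) / k) / (M : ℝ)) atTop (𝓝 (1 / k)) := by
    intro k hk
    have h4 : Tendsto (fun M : ℕ => (1 / k) * (Chebyshev.theta ((M : ℝ) / k) / ((M : ℝ) / k)))
        atTop (𝓝 ((1 / k) * 1)) :=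
      (tendsto_theta_div.comp (hcast.atTop_div_const hk)).const_mul (1 / k)
    rw [mul_one] at h4
    refine h4.congr ?_
    intro M
    rcases Nat.eq_zero_or_pos M with h0 | h0
    · simp [h0]
    · have : (0 : ℝ) < M := by exact_mod_cast h0
      field_simp
  have h5 : Tendsto (fun M : ℕ => ∑ j ∈ range J, (1 / 2 : ℝ) ^ (j + 1) *
        (Chebyshev.theta (M / ((j : ℝ) + 1)) / M - Chebyshev.theta (M / ((j : ℝ) + 2)) / M)) atTop
      (𝓝 (S J)) := by
    unfold S
    apply tendsto_finsetSum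
    intro j _
    apply Tendsto.const_mul
    exact (h3 _ (by positivity)).sub (h3 _ (by positivity))
  have h6 := ((h1.const_mul ((K : ℝ) ^ 2 - K)).add (h2.const_mul (K : ℝ))).sub
    (h5.const_mul ((K : ℝ) ^ 2))
  have h7 : ((K : ℝ) ^ 2 - K) * 1 + K * 1 - (K : ℝ) ^ 2 * S J = (K : ℝ) ^ 2 * (1 - S J) := by ring
  rw [h7] at h6
  refine h6.congr ?_
  intro M
  rw [sub_div, add_div, mul_div_assoc, mul_div_assoc, mul_div_assoc, Finset.sum_div]
  congr 2
  apply Finset.sum_congr rfl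
  intro j _
  rw [mul_div_assoc, sub_div]

/-- The inequality for fixed parameters. -/
lemma key (c : ℝ) (hlim : Tendsto (fun N : ℕ => -Real.log (delta N) / N) atTop (𝓝 c))
    (K q J : ℕ) (hK : 2 ≤ K) (hq : 1 ≤ q) (ε : ℝ) (hε : 0 < ε)
    (hεc : ε * (2 * (q + K)) < c) :
    ((K : ℝ) ^ 2 - K) * ((c - ε) * q) ≤ (q + K - 1) * ((K : ℝ) ^ 2 * (1 - S J)) := by
  -- two-sided bounds for large N
  have hbd : ∀ᶠ N : ℕ in atTop, Real.exp (-((c + ε) * N)) ≤ delta N ∧
      delta N ≤ Real.exp (-((c - ε) * N)) := by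
    have h1 := hlim.eventually (Ioo_mem_nhds (show c - ε < c by linarith)
      (show c < c + ε by linarith))
    filter_upwards [h1, eventually_gt_atTop 0] with N hN hN0
    have hNpos : (0 : ℝ) < N := by exact_mod_cast hN0
    have hd := delta_pos N
    obtain ⟨h2, h3⟩ := hN
    rw [lt_div_iff₀ hNpos] at h2
    rw [div_lt_iff₀ hNpos] at h3
    constructor
    · rw [← Real.le_log_iff_exp_le hd]; linarith
    · rw [← Real.log_le_iff_le_exp hd]; linarith
  obtain ⟨N₀, hN₀⟩ := eventually_atTop.mp hbd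
  have hc : 0 < c := lt_of_le_of_lt (by positivity) hεc
  have hK1 : (2 : ℝ) ≤ K := by exact_mod_cast hK
  have hq1 : (1 : ℝ) ≤ q := by exact_mod_cast hq
  set m : ℕ := q + K - 1 with hm
  have hm1 : 1 ≤ m := by omega
  have hmR : (m : ℝ) = q + K - 1 := by
    rw [hm, Nat.cast_sub (by omega)]; push_cast; ring
  -- the inequality for each large n
  have hn : ∀ᶠ n : ℕ in atTop, ((K : ℝ) ^ 2 - K) * ((c - ε) * (n * q) - Real.log 2) ≤
      ((K : ℝ) ^ 2 - K) * Chebyshev.psi ((n * m : ℕ) : ℝ) + K * Chebyshev.theta ((n * m : ℕ) : ℝ) -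
      (K : ℝ) ^ 2 * ∑ j ∈ range J, (1 / 2 : ℝ) ^ (j + 1) *
        (Chebyshev.theta (((n * m : ℕ) : ℝ) / ((j : ℝ) + 1)) -
          Chebyshev.theta (((n * m : ℕ) : ℝ) / ((j : ℝ) + 2))) := by
    filter_upwards [eventually_ge_atTop (N₀ + 1)] with n hnN
    have hn1 : 1 ≤ n := by omega
    have hnR : (1 : ℝ) ≤ n := by exact_mod_cast hn1
    have hNi : ∀ i : Fin K, N₀ ≤ n * (q + i) := by
      intro i
      calc N₀ ≤ n := by omega
        _ = n * 1 := (mul_one n).symm
        _ ≤ n * (q + i) := Nat.mul_le_mul_left n (by omega)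
    have hatt : ∀ i : Fin K, ∃ A : Finset ℕ, A ⊆ Finset.Icc 1 (n * (q + i)) ∧
        |1 - ∑ k ∈ A, (1 : ℝ) / k| = delta (n * (q + i)) ∧
        |1 - ∑ k ∈ A, (1 : ℝ) / k| ≠ 0 := fun i => delta_attained _
    choose A hA hAd hA0 using hatt
    -- strict decrease
    have hlt : ∀ i j : Fin K, i < j → delta (n * (q + j)) < delta (n * (q + i)) := by
      intro i j hij
      have h1 := (hN₀ _ (hNi j)).2
      have h2 := (hN₀ _ (hNi i)).1
      refine lt_of_le_of_lt h1 (lt_of_lt_of_le ?_ h2)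
      rw [Real.exp_lt_exp, neg_lt_neg_iff]
      have hij' : (i : ℝ) + 1 ≤ (j : ℝ) := by exact_mod_cast hij
      have hiK : (i : ℝ) + 1 ≤ K := by exact_mod_cast i.2
      have hi0 : (0 : ℝ) ≤ (i : ℝ) := Nat.cast_nonneg _
      have hcε : 0 < c - ε := by nlinarith
      push_cast
      have h3 : (c - ε) * (n * (q + ((i : ℝ) + 1))) ≤ (c - ε) * (n * (q + (j : ℝ))) := by
        gcongr
      refine lt_of_lt_of_le ?_ h3
      have h4 : 0 < n * (c - ε * (2 * (q + (i : ℝ)) + 1)) := by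
        apply mul_pos (by linarith)
        nlinarith
      nlinarith
    have hne : ∀ i j : Fin K, i ≠ j → ∑ k ∈ A i, (1 : ℝ) / k ≠ ∑ k ∈ A j, (1 : ℝ) / k := by
      intro i j hij h
      have h1 : delta (n * (q + i)) = delta (n * (q + j)) := by rw [← hAd i, ← hAd j, h]
      rcases lt_or_gt_of_ne hij with h2 | h2
      · have := hlt i j h2; linarith
      · have := hlt j i h2; linarith
    have hsub : ∀ i : Fin K, A i ⊆ Icc 1 (n * m) := by
      intro i
      refine (hA i).trans (Finset.Icc_subset_Icc le_rfl ?_)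
      apply Nat.mul_le_mul_left
      have := i.2
      omega
    have hdle : ∀ i : Fin K, delta (n * (q + i)) ≤ Real.exp (-((c - ε) * (n * q))) := by
      intro i
      refine (hN₀ _ (hNi i)).2.trans ?_
      rw [Real.exp_le_exp, neg_le_neg_iff]
      have hcε : 0 < c - ε := by nlinarith
      push_cast
      have : (0 : ℝ) ≤ (i : ℝ) := Nat.cast_nonneg _
      gcongr
      linarith
    have hT : ∀ i j : Fin K, i ≠ j → |∑ k ∈ A i, (1 : ℝ) / k - ∑ k ∈ A j, (1 : ℝ) / k| ≤
        Real.exp (-((c - ε) * (n * q) - Real.log 2)) := by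
      intro i j _
      have h1 : |∑ k ∈ A i, (1 : ℝ) / k - ∑ k ∈ A j, (1 : ℝ) / k| ≤
          delta (n * (q + j)) + delta (n * (q + i)) := by
        have h2 : ∑ k ∈ A i, (1 : ℝ) / k - ∑ k ∈ A j, (1 : ℝ) / k =
            (1 - ∑ k ∈ A j, (1 : ℝ) / k) - (1 - ∑ k ∈ A i, (1 : ℝ) / k) := by ring
        rw [h2, ← hAd i, ← hAd j]
        exact abs_sub _ _
      have h3 : Real.exp (-((c - ε) * (n * q) - Real.log 2)) =
          2 * Real.exp (-((c - ε) * (n * q))) := by
        have : -((c - ε) * (n * q) - Real.log 2) = Real.log 2 + -((c - ε) * (n * q)) := by ring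
        rw [this, Real.exp_add, Real.exp_log (by norm_num)]
      rw [h3]
      have := hdle i
      have := hdle j
      linarith
    have h1 := plotkin (n * m) A hsub ((c - ε) * (n * q) - Real.log 2) hne hT
    have h2 := weights_lower (n * m) J
    have h3 : (0 : ℝ) ≤ (K : ℝ) ^ 2 := by positivity
    have h4 := mul_le_mul_of_nonneg_left h2 h3
    linarith
  -- divide by n and pass to the limit
  have hmul : Tendsto (fun n : ℕ => n * m) atTop atTop := by
    apply tendsto_atTop_mono (fun n => ?_) tendsto_id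
    calc id n = n * 1 := (mul_one n).symm
      _ ≤ n * m := Nat.mul_le_mul_left n hm1
  have hR := ((rhs_tendsto K J).comp hmul).const_mul (m : ℝ)
  have hcast : Tendsto (fun M : ℕ => (M : ℝ)) atTop atTop := tendsto_natCast_atTop_atTop
  have hL : Tendsto (fun n : ℕ => ((K : ℝ) ^ 2 - K) * ((c - ε) * q - Real.log 2 / n)) atTop
      (𝓝 (((K : ℝ) ^ 2 - K) * ((c - ε) * q - 0))) := by
    apply Tendsto.const_mul
    exact tendsto_const_nhds.sub (hcast.const_div_atTop _)
  rw [sub_zero] at hL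
  rw [hmR] at hR
  refine le_of_tendsto_of_tendsto hL hR ?_
  filter_upwards [hn, eventually_gt_atTop 0] with n h1 h0
  have hnpos : (0 : ℝ) < n := by exact_mod_cast h0
  have hmpos : (0 : ℝ) < m := by exact_mod_cast hm1
  simp only [Function.comp]
  rw [← hmR, mul_div_assoc', Nat.cast_mul] at *
  rw [le_div_iff₀ (by positivity)]
  have h2 : ((K : ℝ) ^ 2 - K) * ((c - ε) * q - Real.log 2 / n) * (n * m) =
      m * (((K : ℝ) ^ 2 - K) * ((c - ε) * (n * q) - Real.log 2)) := by
    field_simp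
  rw [h2]
  exact mul_le_mul_of_nonneg_left h1 hmpos.le

/-- If `-log δ(N) / N → c` then `c ≤ log 2`. -/
theorem result (c : ℝ)
    (hlim : Tendsto (fun N : ℕ => -Real.log (delta N) / N) atTop (𝓝 c)) : c ≤ Real.log 2 := by
  rcases le_or_gt c 0 with hc | hc
  · exact hc.trans (Real.log_pos one_lt_two).le
  -- first let `J → ∞`
  have h1 : ∀ K q : ℕ, 2 ≤ K → 1 ≤ q → ∀ ε : ℝ, 0 < ε → ε * (2 * (q + K)) < c →
      ((K : ℝ) ^ 2 - K) * ((c - ε) * q) ≤ (q + K - 1) * ((K : ℝ) ^ 2 * Real.log 2) := by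
    intro K q hK hq ε hε hεc
    have h2 : Tendsto (fun J : ℕ => ((q : ℝ) + K - 1) * ((K : ℝ) ^ 2 * (1 - S J))) atTop
        (𝓝 (((q : ℝ) + K - 1) * ((K : ℝ) ^ 2 * (1 - (1 - Real.log 2))))) :=
      ((S_tendsto.const_sub 1).const_mul _).const_mul _
    have h3 : (1 : ℝ) - (1 - Real.log 2) = Real.log 2 := by ring
    rw [h3] at h2
    exact ge_of_tendsto' h2 fun J => key c hlim K q J hK hq ε hε hεc
  -- then `ε → 0`
  have h2 : ∀ K q : ℕ, 2 ≤ K → 1 ≤ q →
      ((K : ℝ) ^ 2 - K) * (c * q) ≤ (q + K - 1) * ((K : ℝ) ^ 2 * Real.log 2) := by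
    intro K q hK hq
    have hlimε : Tendsto (fun ε : ℝ => ((K : ℝ) ^ 2 - K) * ((c - ε) * q)) (𝓝[>] 0)
        (𝓝 (((K : ℝ) ^ 2 - K) * ((c - 0) * q))) := by
      apply Tendsto.mono_left _ nhdsWithin_le_nhds
      apply Continuous.tendsto
      fun_prop
    rw [sub_zero] at hlimε
    refine le_of_tendsto hlimε ?_
    have hqK : (0 : ℝ) < 2 * (q + K) := by
      have : (1 : ℝ) ≤ q := by exact_mod_cast hq
      positivity
    have hpos : 0 < c / (2 * (q + K)) := by positivity
    filter_upwards [Ioo_mem_nhdsGT hpos] with ε hε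
    apply h1 K q hK hq ε hε.1
    have := hε.2
    rwa [lt_div_iff₀ hqK] at this
  -- finally `q = K ^ 2` and `K → ∞`
  have hcast : Tendsto (fun M : ℕ => (M : ℝ)) atTop atTop := tendsto_natCast_atTop_atTop
  have hinv : Tendsto (fun K : ℕ => (1 : ℝ) / (K : ℝ)) atTop (𝓝 0) := hcast.const_div_atTop 1
  have h3 : Tendsto (fun K : ℕ => (1 - 1 / (K : ℝ)) * c) atTop (𝓝 ((1 - 0) * c)) :=
    (hinv.const_sub 1).mul_const c
  have h4 : Tendsto (fun K : ℕ => (1 + 1 / (K : ℝ) - 1 / (K : ℝ) * (1 / (K : ℝ))) * Real.log 2)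
      atTop (𝓝 ((1 + 0 - 0 * 0) * Real.log 2)) :=
    ((hinv.const_add 1).sub (hinv.mul hinv)).mul_const _
  have h5 : (1 - 0) * c ≤ (1 + 0 - 0 * 0) * Real.log 2 := by
    refine le_of_tendsto_of_tendsto h3 h4 ?_
    filter_upwards [eventually_ge_atTop 2] with K hK
    have hKpos : (0 : ℝ) < K := by
      have : (2 : ℝ) ≤ K := by exact_mod_cast hK
      linarith
    have h6 := h2 K (K ^ 2) hK (Nat.one_le_pow _ _ (by omega))
    push_cast at h6
    have h7 : (1 - 1 / (K : ℝ)) * c * (K : ℝ) ^ 4 ≤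
        (1 + 1 / (K : ℝ) - 1 / (K : ℝ) * (1 / (K : ℝ))) * Real.log 2 * (K : ℝ) ^ 4 := by
      have e1 : (1 - 1 / (K : ℝ)) * c * (K : ℝ) ^ 4 = ((K : ℝ) ^ 2 - K) * (c * (K : ℝ) ^ 2) := by
        field_simp
      have e2 : (1 + 1 / (K : ℝ) - 1 / (K : ℝ) * (1 / (K : ℝ))) * Real.log 2 * (K : ℝ) ^ 4 =
          ((K : ℝ) ^ 2 + K - 1) * ((K : ℝ) ^ 2 * Real.log 2) := by
        field_simp
      rw [e1, e2]
      exact h6
    exact le_of_mul_le_mul_right h7 (by positivity)
  linarith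

end Pool.Agent.Results.MP_4a64c7_nt.LimitBound
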